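import Pool.Agent.Lib.MP_55c1e7_ag.Final

/-!
# MP_55c1e7_ag, Q1: full answer, the statement is FALSE

Places of bad reduction are not a derived invariant.

The example.  `k = ℚ`, `v = 3`, `E` the curve `w ^ 2 = x ^ 4 + 1`, `W = E ^ 3` with coordinates
`x, y, z` (maps to the projective line), and the curves `C1 = {y = z = 0}`, `C2 = {x = z = 0}`,
`C3 = {x = 3, y = 0}` in `W`.  `X` is the blow-up of `W` in `C1`, then in the strict transforms of
`C2` and `C3`; `Y` is the blow-up in `C2`, `C1`, `C3` in this order (`C2` and `C3` do not meet).
`X` and `Y` differ by Atiyah flops over the points of `C1 ∩ C2`, so they are derived equivalent.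
`X` has a smooth projective model over the local ring of `ℤ` at `3` (blow up `C1` first: the strict
transforms of `C2` and `C3` no longer meet), but modulo `3` the curves `C2` and `C3` meet at points of
`C1`, and in a smooth projective model of `Y` the exceptional curves would have to be separated in
incompatible ways: `Y` has no smooth projective model.

Definitions: see `Defs.lean` and `Stmt.lean`.
-/

open AlgebraicGeometry CategoryTheory

namespace Pool.Agent.Results.MP_55c1e7_ag.BadReduction

open BadRed

theorem result : ∃ (v : IsDedekindDomain.HeightOneSpectrum (NumberField.RingOfIntegers ℚ))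
    (X Y : Scheme.{0}) (f : X ⟶ Spec (CommRingCat.of ℚ)) (g : Y ⟶ Spec (CommRingCat.of ℚ))
    (hf : IsSmoothProjectiveVariety f) (hg : IsSmoothProjectiveVariety g),
    (3 : NumberField.RingOfIntegers ℚ) ∈ v.asIdeal ∧
    DerivedEquivalent hf hg ∧ HasGoodReduction v f ∧ ¬ HasGoodReduction v g :=
  BadRed.main

end Pool.Agent.Results.MP_55c1e7_ag.BadReduction
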